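import Mathlib

set_option autoImplicit false

/-!
# Latin squares without odd-weights

A latin square has no odd-weight if and only if it has the odd-block pattern of the cyclic group of order `2 m` for some
`m ≥ 1`.

Proof. If the all-ones vector is not an integral combination of the incidence vectors of the cells, then some character
with values in `ℚ/ℤ` kills all cells and not the all-ones vector. It gives functions `a`, `b`, `g` on rows, columns and
symbols with `a i + b j = g (L i j)`. Their common image is a finite subgroup of `ℚ/ℤ`, hence cyclic, all fibres have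
the same size `q`, and the sum of all values is `q` times the sum of all elements of that subgroup.
-/

namespace Pool.Agent.Results.MP_b7f7f4_co.OddBlockPattern

/-- `L` is a latin square of order `n` on the symbols `Fin n`. -/
def IsLatin {n : ℕ} (L : Fin n → Fin n → Fin n) : Prop :=
  (∀ i, Function.Bijective (L i)) ∧ ∀ j, Function.Bijective fun i => L i j

/-- `θ` is a `k`-weight of `L`: the integers `θ i j` on the cells sum to `k` over every row, every column and over the
cells of every symbol. -/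
def IsWeight {n : ℕ} (L : Fin n → Fin n → Fin n) (k : ℤ) (θ : Fin n → Fin n → ℤ) : Prop :=
  (∀ i, ∑ j, θ i j = k) ∧ (∀ j, ∑ i, θ i j = k) ∧
    ∀ s, ∑ i, ∑ j, (if L i j = s then θ i j else 0) = k

/-- `L` has an odd-weight, that is a `k`-weight for some odd `k`. -/
def HasOddWeight {n : ℕ} (L : Fin n → Fin n → Fin n) : Prop :=
  ∃ k : ℤ, Odd k ∧ ∃ θ, IsWeight L k θ

/-- `L` has the odd-block pattern of the Cayley table of `ℤ/2m`: for some odd `q`, after a renumbering `r` of the rows
and a renumbering `c` of the columns by pairs (block number in `ℤ/2m`, position in `Fin q`), every block `(a, b)` is a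
latin square on a set `T a b` of symbols, and two blocks `(a, b)`, `(a', b')` have the same set of symbols if and only
if `a + b = a' + b'`. -/
def HasOddBlockPattern {n : ℕ} (L : Fin n → Fin n → Fin n) (m : ℕ) : Prop :=
  1 ≤ m ∧ ∃ q : ℕ, Odd q ∧ ∃ r c : Fin n ≃ ZMod (2 * m) × Fin q,
    ∃ T : ZMod (2 * m) → ZMod (2 * m) → Set (Fin n),
      (∀ a b x, Set.BijOn (fun y => L (r.symm (a, x)) (c.symm (b, y))) Set.univ (T a b)) ∧
      (∀ a b y, Set.BijOn (fun x => L (r.symm (a, x)) (c.symm (b, y))) Set.univ (T a b)) ∧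
      ∀ a b a' b', T a b = T a' b' ↔ a + b = a' + b'

/-! ### A numbering from a map with fibres of equal size -/

theorem exists_numbering {n q : ℕ} {A : Type} [DecidableEq A] (ρ : Fin n → A)
    (h : ∀ a, Fintype.card {i // ρ i = a} = q) :
    ∃ r : Fin n ≃ A × Fin q, ∀ i, (r i).1 = ρ i := by
  refine ⟨(Equiv.sigmaFiberEquiv ρ).symm.trans
    ((Equiv.sigmaCongrRight fun a => Fintype.equivFinOfCardEq (h a)).trans
      (Equiv.sigmaEquivProd A (Fin q))), fun i => ?_⟩
  rfl

/-! ### From a map to a cyclic group to the block pattern -/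

theorem pattern_of_maps {n m q : ℕ} {L : Fin n → Fin n → Fin n} (hL : IsLatin L) (hm : 1 ≤ m)
    (hq : Odd q) (ρ κ σ : Fin n → ZMod (2 * m)) (hmap : ∀ i j, σ (L i j) = ρ i + κ j)
    (hρ : ∀ a, Fintype.card {i // ρ i = a} = q) (hκ : ∀ a, Fintype.card {i // κ i = a} = q) :
    HasOddBlockPattern L m := by
  classical
  obtain ⟨r, hr⟩ := exists_numbering ρ hρ
  obtain ⟨c, hc⟩ := exists_numbering κ hκ
  have hqpos : 0 < q := hq.pos
  have hr' : ∀ a x, ρ (r.symm (a, x)) = a := by
    intro a x; rw [← hr, Equiv.apply_symm_apply]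
  have hc' : ∀ a x, κ (c.symm (a, x)) = a := by
    intro a x; rw [← hc, Equiv.apply_symm_apply]
  refine ⟨hm, q, hq, r, c, fun a b => {s | σ s = a + b}, ?_, ?_, ?_⟩
  · intro a b x
    refine ⟨fun y _ => ?_, fun y _ y' _ e => ?_, fun s hs => ?_⟩
    · show σ _ = a + b
      rw [hmap, hr', hc']
    · have := c.symm.injective ((hL.1 _).1 e)
      exact (Prod.mk.inj this).2
    · obtain ⟨j, hj⟩ := (hL.1 (r.symm (a, x))).2 s
      have h1 : κ j = b := by
        have h2 := hmap (r.symm (a, x)) j
        rw [hj, hr'] at h2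
        have h3 : σ s = a + b := hs
        rw [h3] at h2
        exact (add_left_cancel h2).symm
      refine ⟨(c j).2, Set.mem_univ _, ?_⟩
      show L _ (c.symm (b, (c j).2)) = s
      have : (b, (c j).2) = c j := by
        rw [← h1, ← hc j]
      rw [this, Equiv.symm_apply_apply, hj]
  · intro a b y
    refine ⟨fun x _ => ?_, fun x _ x' _ e => ?_, fun s hs => ?_⟩
    · show σ _ = a + b
      rw [hmap, hr', hc']
    · have := r.symm.injective ((hL.2 _).1 e)
      exact (Prod.mk.inj this).2
    · obtain ⟨i, hi⟩ := (hL.2 (c.symm (b, y))).2 s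
      simp only at hi
      have h1 : ρ i = a := by
        have h2 := hmap i (c.symm (b, y))
        rw [hi, hc'] at h2
        have h3 : σ s = a + b := hs
        rw [h3] at h2
        exact (add_right_cancel h2).symm
      refine ⟨(r i).2, Set.mem_univ _, ?_⟩
      show L (r.symm (a, (r i).2)) _ = s
      have : (a, (r i).2) = r i := by
        rw [← h1, ← hr i]
      rw [this, Equiv.symm_apply_apply, hi]
  · intro a b a' b'
    constructor
    · intro e
      have h1 : L (r.symm (a, ⟨0, hqpos⟩)) (c.symm (b, ⟨0, hqpos⟩)) ∈ {s | σ s = a + b} := by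
        show σ _ = a + b
        rw [hmap, hr', hc']
      have e' : {s | σ s = a + b} = {s | σ s = a' + b'} := e
      rw [e'] at h1
      have h2 : σ (L (r.symm (a, ⟨0, hqpos⟩)) (c.symm (b, ⟨0, hqpos⟩))) = a' + b' := h1
      rw [hmap, hr', hc'] at h2
      exact h2
    · intro e
      simp only [e]

/-! ### The converse -/

theorem sum_fibre {A : Type} [Fintype A] [DecidableEq A] [AddCommMonoid A] {n q : ℕ} (r : Fin n ≃ A × Fin q) :
    ∑ i, (r i).1 = q • ∑ a : A, a := by
  rw [Equiv.sum_comp r (fun p : A × Fin q => p.1), Fintype.sum_prod_type]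
  simp [Finset.smul_sum]

theorem two_mul_sum (m : ℕ) [NeZero (2 * m)] (hm : 1 ≤ m) :
    (∑ a : ZMod (2 * m), a) = (m : ZMod (2 * m)) := by
  have h1 : (∑ a : ZMod (2 * m), a) = ∑ i ∈ Finset.range (2 * m), (i : ZMod (2 * m)) := by
    symm
    apply Finset.sum_bij (fun (i : ℕ) _ => (i : ZMod (2 * m)))
    · intro i _; exact Finset.mem_univ _
    · intro i hi j hj e
      have h2 := (ZMod.natCast_eq_natCast_iff' i j (2 * m)).1 e
      rw [Nat.mod_eq_of_lt (Finset.mem_range.1 hi), Nat.mod_eq_of_lt (Finset.mem_range.1 hj)] at h2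
      exact h2
    · intro b _
      exact ⟨b.val, Finset.mem_range.2 (ZMod.val_lt b), by simp⟩
    · intro i _; rfl
  rw [h1, ← Nat.cast_sum, Finset.sum_range_id]
  have h2 : 2 * m * (2 * m - 1) / 2 = 2 * m * (m - 1) + m := by
    obtain ⟨k, rfl⟩ : ∃ k, m = k + 1 := ⟨m - 1, by omega⟩
    rw [show 2 * (k + 1) * (2 * (k + 1) - 1) = 2 * ((k + 1) * (2 * k + 1)) by
      rw [show 2 * (k + 1) - 1 = 2 * k + 1 by omega]; ring]
    rw [Nat.mul_div_cancel_left _ (by norm_num)]
    simp
    ring
  rw [h2]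
  push_cast
  have h3 : (2 * (m : ZMod (2 * m))) = 0 := by
    have := ZMod.natCast_self (2 * m)
    push_cast at this
    exact this
  rw [h3]; ring

theorem no_odd_of_pattern {n m : ℕ} {L : Fin n → Fin n → Fin n} (hL : IsLatin L)
    (h : HasOddBlockPattern L m) : ¬ HasOddWeight L := by
  classical
  rintro ⟨k, hk, θ, hrow, hcol, hsym⟩
  obtain ⟨hm, q, hq, r, c, T, hT1, hT2, hT⟩ := h
  have : NeZero (2 * m) := ⟨by omega⟩
  have hqpos : 0 < q := hq.pos
  -- every cell lies in a block
  have hcell : ∀ i j, L i j ∈ T (r i).1 (c j).1 := by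
    intro i j
    have h1 := (hT1 (r i).1 (c j).1 (r i).2).mapsTo (Set.mem_univ (c j).2)
    simpa using h1
  -- blocks in the same block row are disjoint
  have hdis : ∀ t t' s, s ∈ T 0 t → s ∈ T 0 t' → t = t' := by
    intro t t' s h1 h2
    obtain ⟨y, _, hy⟩ := (hT1 0 t ⟨0, hqpos⟩).surjOn h1
    obtain ⟨y', _, hy'⟩ := (hT1 0 t' ⟨0, hqpos⟩).surjOn h2
    have h3 := c.symm.injective ((hL.1 _).1 (hy.trans hy'.symm))
    exact (Prod.mk.inj h3).1
  have hTab : ∀ a b, T a b = T 0 (a + b) := fun a b => (hT _ _ _ _).2 (by ring)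
  -- the class of a symbol
  have hex : ∀ s, ∃ t, s ∈ T 0 t := by
    intro s
    obtain ⟨j, hj⟩ := (hL.1 (r.symm (0, ⟨0, hqpos⟩))).2 s
    have h1 := hcell (r.symm (0, ⟨0, hqpos⟩)) j
    rw [hj] at h1
    rw [Equiv.apply_symm_apply] at h1
    exact ⟨_, h1⟩
  choose σ hσ using hex
  have hmap : ∀ i j, σ (L i j) = (r i).1 + (c j).1 := by
    intro i j
    have h1 := hcell i j
    rw [hTab] at h1
    exact hdis _ _ _ (hσ _) h1
  -- each class has `q` symbols
  have hσcard : ∀ a, Fintype.card {s // σ s = a} = q := by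
    intro a
    have e : Fin q ≃ {s // σ s = a} := by
      refine Equiv.ofBijective (fun y => ⟨L (r.symm (0, ⟨0, hqpos⟩)) (c.symm (a, y)), ?_⟩) ⟨?_, ?_⟩
      · rw [hmap]; simp
      · intro y y' e
        have h1 := congrArg Subtype.val e
        have h3 := c.symm.injective ((hL.1 _).1 h1)
        exact (Prod.mk.inj h3).2
      · rintro ⟨s, hs⟩
        obtain ⟨j, hj⟩ := (hL.1 (r.symm (0, ⟨0, hqpos⟩))).2 s
        have h1 := hmap (r.symm (0, ⟨0, hqpos⟩)) j
        rw [hj, hs] at h1
        simp only [Equiv.apply_symm_apply, zero_add] at h1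
        refine ⟨(c j).2, ?_⟩
        apply Subtype.ext
        show L _ (c.symm (a, (c j).2)) = s
        rw [h1]
        simpa using hj
    rw [← Fintype.card_congr e, Fintype.card_fin]
  obtain ⟨u, hu⟩ := exists_numbering σ hσcard
  -- the weighted sum
  have key : ∑ i, ∑ j, (θ i j : ZMod (2 * m)) * ((r i).1 + (c j).1 - σ (L i j)) = 0 := by
    apply Finset.sum_eq_zero
    intro i _
    apply Finset.sum_eq_zero
    intro j _
    rw [hmap]; ring
  have e1 : ∑ i, ∑ j, (θ i j : ZMod (2 * m)) * (r i).1 = k * ∑ i, (r i).1 := by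
    rw [Finset.mul_sum]
    refine Finset.sum_congr rfl fun i _ => ?_
    rw [← Finset.sum_mul, ← hrow i]
    push_cast
    rfl
  have e2 : ∑ i, ∑ j, (θ i j : ZMod (2 * m)) * (c j).1 = k * ∑ i, (c i).1 := by
    rw [Finset.sum_comm, Finset.mul_sum]
    refine Finset.sum_congr rfl fun j _ => ?_
    rw [← Finset.sum_mul, ← hcol j]
    push_cast
    rfl
  have e3 : ∑ i, ∑ j, (θ i j : ZMod (2 * m)) * σ (L i j) = k * ∑ s, σ s := by
    rw [Finset.mul_sum]
    have h1 : ∀ s, (k : ZMod (2 * m)) * σ s = ∑ i, ∑ j, if L i j = s then (θ i j : ZMod (2 * m)) * σ s else 0 := by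
      intro s
      rw [← hsym s]
      push_cast
      rw [Finset.sum_mul]
      refine Finset.sum_congr rfl fun i _ => ?_
      rw [Finset.sum_mul]
      refine Finset.sum_congr rfl fun j _ => ?_
      split_ifs <;> simp
    rw [Finset.sum_congr rfl fun s _ => h1 s]
    symm
    rw [Finset.sum_comm]
    refine Finset.sum_congr rfl fun i _ => ?_
    rw [Finset.sum_comm]
    refine Finset.sum_congr rfl fun j _ => ?_
    rw [Finset.sum_ite_eq]
    simp
  have e4 : ∑ i, ∑ j, (θ i j : ZMod (2 * m)) * ((r i).1 + (c j).1 - σ (L i j)) =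
      k * ∑ i, (r i).1 + k * ∑ i, (c i).1 - k * ∑ s, σ s := by
    rw [← e1, ← e2, ← e3, ← Finset.sum_add_distrib, ← Finset.sum_sub_distrib]
    refine Finset.sum_congr rfl fun i _ => ?_
    rw [← Finset.sum_add_distrib, ← Finset.sum_sub_distrib]
    refine Finset.sum_congr rfl fun j _ => ?_
    ring
  have e5 : ∑ s, σ s = ∑ s, (u s).1 := Finset.sum_congr rfl fun s _ => (hu s).symm
  rw [e4, e5, sum_fibre, sum_fibre, sum_fibre, two_mul_sum m hm] at key
  have e6 : (k : ZMod (2 * m)) * (q • (m : ZMod (2 * m))) = 0 := by linear_combination key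
  rw [nsmul_eq_mul] at e6
  have e7 : ((k * (q * m : ℤ) : ℤ) : ZMod (2 * m)) = 0 := by push_cast; exact e6
  rw [ZMod.intCast_zmod_eq_zero_iff_dvd] at e7
  obtain ⟨d, hd⟩ := e7
  have hmpos : (m : ℤ) ≠ 0 := by exact_mod_cast (by omega : m ≠ 0)
  have e8 : k * q = 2 * d := by
    apply mul_right_cancel₀ hmpos
    push_cast at hd
    linear_combination hd
  have e9 : Odd (k * (q : ℤ)) := hk.mul (by exact_mod_cast hq)
  rw [e8] at e9
  exact (Int.not_odd_iff_even.2 (even_two_mul d)) e9

/-! ### A character of the group of weightings -/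

/-- Rows, columns and symbols. -/
abbrev Idx (n : ℕ) : Type := Fin n ⊕ Fin n ⊕ Fin n

/-- The sums of a weighting of the cells over rows, columns and symbols. -/
def sums {n : ℕ} (L : Fin n → Fin n → Fin n) : (Fin n × Fin n → ℤ) →ₗ[ℤ] (Idx n → ℤ) where
  toFun θ := Sum.elim (fun i => ∑ j, θ (i, j)) (Sum.elim (fun j => ∑ i, θ (i, j))
    fun s => ∑ i, ∑ j, if L i j = s then θ (i, j) else 0)
  map_add' θ θ' := by
    ext x
    rcases x with i | j | s
    · simp [Finset.sum_add_distrib]
    · simp [Finset.sum_add_distrib]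
    · simp only [Sum.elim_inr, Pi.add_apply]
      rw [← Finset.sum_add_distrib]
      refine Finset.sum_congr rfl fun i _ => ?_
      rw [← Finset.sum_add_distrib]
      refine Finset.sum_congr rfl fun j _ => ?_
      split_ifs <;> simp
  map_smul' a θ := by
    ext x
    rcases x with i | j | s
    · simp [Finset.mul_sum]
    · simp [Finset.mul_sum]
    · simp only [Sum.elim_inr, Pi.smul_apply, RingHom.id_apply, smul_eq_mul]
      rw [Finset.mul_sum]
      refine Finset.sum_congr rfl fun i _ => ?_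
      rw [Finset.mul_sum]
      refine Finset.sum_congr rfl fun j _ => ?_
      split_ifs <;> simp

theorem sums_single {n : ℕ} (L : Fin n → Fin n → Fin n) (i j : Fin n) :
    sums L (Pi.single (i, j) 1) = Pi.single (Sum.inl i) 1 + Pi.single (Sum.inr (Sum.inl j)) 1 +
      Pi.single (Sum.inr (Sum.inr (L i j))) 1 := by
  classical
  ext x
  rcases x with i' | j' | s
  · simp only [sums, LinearMap.coe_mk, AddHom.coe_mk, Sum.elim_inl, Pi.add_apply, Pi.single_apply, Prod.mk.injEq,
      Sum.inl.injEq, reduceCtorEq, if_false, add_zero]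
    by_cases h : i' = i <;> simp [h]
  · simp only [sums, LinearMap.coe_mk, AddHom.coe_mk, Sum.elim_inl, Sum.elim_inr, Pi.add_apply, Pi.single_apply,
      Prod.mk.injEq, Sum.inr.injEq, Sum.inl.injEq, reduceCtorEq, if_false, add_zero, zero_add]
    by_cases h : j' = j <;> simp [h]
  · simp only [sums, LinearMap.coe_mk, AddHom.coe_mk, Sum.elim_inr, Pi.add_apply, Pi.single_apply,
      Prod.mk.injEq, Sum.inr.injEq, reduceCtorEq, if_false, zero_add]
    rw [Finset.sum_eq_single i, Finset.sum_eq_single j]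
    · simp [eq_comm]
    · intro b _ hb; simp [hb]
    · simp
    · intro b _ hb
      apply Finset.sum_eq_zero
      intro j' _
      simp [hb]
    · simp

theorem exists_character {n : ℕ} (L : Fin n → Fin n → Fin n) (h : ¬ HasOddWeight L) :
    ∃ α β γ : Fin n → AddCircle (1 : ℚ), (∀ i j, α i + β j + γ (L i j) = 0) ∧
      ∑ i, α i + ∑ i, β i + ∑ i, γ i ≠ 0 := by
  classical
  have hv : (fun _ => 1 : Idx n → ℤ) ∉ LinearMap.range (sums L) := by
    rintro ⟨θ, hθ⟩
    refine h ⟨1, odd_one, fun i j => θ (i, j), ?_, ?_, ?_⟩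
    · intro i; exact congrFun hθ (Sum.inl i)
    · intro j; exact congrFun hθ (Sum.inr (Sum.inl j))
    · intro s; exact congrFun hθ (Sum.inr (Sum.inr s))
  have hv' : (Submodule.Quotient.mk (fun _ => 1) : (Idx n → ℤ) ⧸ LinearMap.range (sums L)) ≠ 0 := by
    rw [Ne, Submodule.Quotient.mk_eq_zero]
    exact hv
  obtain ⟨c, hc⟩ := CharacterModule.exists_character_apply_ne_zero_of_ne_zero hv'
  let c' : (Idx n → ℤ) →+ AddCircle (1 : ℚ) :=
    (show ((Idx n → ℤ) ⧸ LinearMap.range (sums L)) →+ AddCircle (1 : ℚ) from c).comp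
      (LinearMap.range (sums L)).mkQ.toAddMonoidHom
  have hc' : c' (fun _ => 1) ≠ 0 := hc
  have hker : ∀ θ, c' (sums L θ) = 0 := by
    intro θ
    have h1 : (LinearMap.range (sums L)).mkQ (sums L θ) = 0 := by
      rw [Submodule.mkQ_apply, Submodule.Quotient.mk_eq_zero]
      exact ⟨θ, rfl⟩
    show (show ((Idx n → ℤ) ⧸ LinearMap.range (sums L)) →+ AddCircle (1 : ℚ) from c) _ = 0
    show (show ((Idx n → ℤ) ⧸ LinearMap.range (sums L)) →+ AddCircle (1 : ℚ) from c)
      ((LinearMap.range (sums L)).mkQ (sums L θ)) = 0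
    rw [h1, map_zero]
  refine ⟨fun i => c' (Pi.single (Sum.inl i) 1), fun j => c' (Pi.single (Sum.inr (Sum.inl j)) 1),
    fun s => c' (Pi.single (Sum.inr (Sum.inr s)) 1), fun i j => ?_, ?_⟩
  · rw [← map_add, ← map_add, ← sums_single]
    exact hker _
  · intro e
    apply hc'
    have h1 : (fun _ => 1 : Idx n → ℤ) = ∑ x, Pi.single x 1 := by
      ext x
      simp [Finset.sum_apply, Pi.single_apply]
    rw [h1, map_sum, Fintype.sum_sum_type, Fintype.sum_sum_type, ← add_assoc]
    exact e

/-! ### Finite subgroups of `ℚ/ℤ` are cyclic -/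

theorem cyclic_of_finite (H : AddSubgroup (AddCircle (1 : ℚ))) [Finite H] : IsAddCyclic H := by
  classical
  have := Fintype.ofFinite H
  apply isAddCyclic_of_card_nsmul_eq_zero_le
  intro n hn
  have h1 := AddCircle.card_torsion_le_of_isSMulRegular (1 : ℚ) n (by omega)
    (by
      intro x y hxy
      have : (n : ℚ) * x = n * y := by simpa [nsmul_eq_mul] using hxy
      exact mul_left_cancel₀ (by exact_mod_cast (by omega : n ≠ 0)) this)
  have h2 : (((Finset.univ.filter fun a : H => n • a = 0).image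
      (fun a : H => (a : AddCircle (1 : ℚ))) : Finset _) : Set (AddCircle (1 : ℚ))) ⊆
      {u | n • u = 0} := by
    intro u hu
    rw [Finset.mem_coe, Finset.mem_image] at hu
    obtain ⟨a, ha, rfl⟩ := hu
    have := (Finset.mem_filter.1 ha).2
    show n • (a : AddCircle (1 : ℚ)) = 0
    have h3 := congrArg (Subtype.val) this
    simpa using h3
  have h3 := Set.encard_le_encard h2
  rw [Set.encard_coe_eq_coe_finsetCard, Finset.card_image_of_injective _ Subtype.val_injective] at h3
  have h4 := h3.trans h1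
  exact_mod_cast h4

/-! ### The main theorem -/

theorem pattern_of_no_odd {n : ℕ} {L : Fin n → Fin n → Fin n} (hL : IsLatin L)
    (h : ¬ HasOddWeight L) : ∃ m, HasOddBlockPattern L m := by
  classical
  obtain ⟨α, β, γ, hαβγ, hne⟩ := exists_character L h
  -- `n` is positive
  rcases Nat.eq_zero_or_pos n with hn | hn
  · subst hn
    exact absurd (by simp) hne
  let o : Fin n := ⟨0, hn⟩
  let a : Fin n → AddCircle (1 : ℚ) := fun i => α i - α o
  let b : Fin n → AddCircle (1 : ℚ) := fun j => β j - β o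
  let g : Fin n → AddCircle (1 : ℚ) := fun s => - γ s - α o - β o
  have hab : ∀ i j, g (L i j) = a i + b j := by
    intro i j
    have h1 := hαβγ i j
    have h2 : γ (L i j) = - (α i + β j) := by
      rw [eq_neg_iff_add_eq_zero, add_comm]; exact h1
    simp only [a, b, g, h2]
    abel
  have ha0 : a o = 0 := by simp [a]
  have hb0 : b o = 0 := by simp [b]
  -- translations
  have hrange1 : ∀ i x, x ∈ Set.range b ↔ a i + x ∈ Set.range g := by
    intro i x
    constructor
    · rintro ⟨j, rfl⟩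
      exact ⟨L i j, hab i j⟩
    · rintro ⟨s, hs⟩
      obtain ⟨j, rfl⟩ := (hL.1 i).2 s
      rw [hab] at hs
      exact ⟨j, add_left_cancel hs⟩
  have hrange2 : ∀ j x, x ∈ Set.range a ↔ x + b j ∈ Set.range g := by
    intro j x
    constructor
    · rintro ⟨i, rfl⟩
      exact ⟨L i j, hab i j⟩
    · rintro ⟨s, hs⟩
      obtain ⟨i, hi⟩ := (hL.2 j).2 s
      simp only at hi
      rw [← hi, hab] at hs
      exact ⟨i, add_right_cancel hs⟩
  have hbg : Set.range b = Set.range g := by
    ext x
    have := hrange1 o x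
    rwa [ha0, zero_add] at this
  have hag : Set.range a = Set.range g := by
    ext x
    have := hrange2 o x
    rwa [hb0, add_zero] at this
  have hfin : (Set.range g).Finite := Set.finite_range g
  have hadd : ∀ x y, x ∈ Set.range g → y ∈ Set.range g → x + y ∈ Set.range g := by
    intro x y hx hy
    rw [← hag] at hx
    obtain ⟨i, rfl⟩ := hx
    rw [← hbg] at hy
    exact (hrange1 i y).1 hy
  have hzero : (0 : AddCircle (1 : ℚ)) ∈ Set.range g := by
    rw [← hag]; exact ⟨o, ha0⟩
  have hsub : ∀ x y, x ∈ Set.range g → x + y ∈ Set.range g → y ∈ Set.range g := by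
    intro x y hx hy
    rw [← hag] at hx
    obtain ⟨i, rfl⟩ := hx
    rw [← hbg]
    exact (hrange1 i y).2 hy
  let H : AddSubgroup (AddCircle (1 : ℚ)) :=
    { carrier := Set.range g
      add_mem' := fun {x y} hx hy => hadd x y hx hy
      zero_mem' := hzero
      neg_mem' := fun {x} hx => hsub x (-x) hx (by rw [add_neg_cancel]; exact hzero) }
  have : Finite H := hfin
  have : Fintype H := Fintype.ofFinite H
  have hcyc : IsAddCyclic H := cyclic_of_finite H
  have haH : ∀ i, a i ∈ H := fun i => by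
    show a i ∈ Set.range g
    rw [← hag]; exact ⟨i, rfl⟩
  have hbH : ∀ i, b i ∈ H := fun i => by
    show b i ∈ Set.range g
    rw [← hbg]; exact ⟨i, rfl⟩
  have hgH : ∀ i, g i ∈ H := fun i => ⟨i, rfl⟩
  -- fibres
  have hfib1 : ∀ i x, Fintype.card {j // b j = x} = Fintype.card {s // g s = a i + x} := by
    intro i x
    apply Fintype.card_congr
    refine Equiv.ofBijective (fun j => ⟨L i j.1, by rw [hab, j.2]⟩) ⟨?_, ?_⟩
    · rintro ⟨j, hj⟩ ⟨j', hj'⟩ e
      exact Subtype.ext ((hL.1 i).1 (congrArg Subtype.val e))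
    · rintro ⟨s, hs⟩
      obtain ⟨j, rfl⟩ := (hL.1 i).2 s
      refine ⟨⟨j, ?_⟩, rfl⟩
      rw [hab] at hs
      exact add_left_cancel hs
  have hfib2 : ∀ j x, Fintype.card {i // a i = x} = Fintype.card {s // g s = x + b j} := by
    intro j x
    apply Fintype.card_congr
    refine Equiv.ofBijective (fun i => ⟨L i.1 j, by rw [hab, i.2]⟩) ⟨?_, ?_⟩
    · rintro ⟨i, hi⟩ ⟨i', hi'⟩ e
      exact Subtype.ext ((hL.2 j).1 (congrArg Subtype.val e))
    · rintro ⟨s, hs⟩
      obtain ⟨i, hi⟩ := (hL.2 j).2 s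
      simp only at hi
      subst hi
      refine ⟨⟨i, ?_⟩, rfl⟩
      rw [hab] at hs
      exact add_right_cancel hs
  set q := Fintype.card {s // g s = 0} with hqdef
  have hb_card : ∀ x ∈ H, Fintype.card {j // b j = x} = q := by
    intro x hx
    obtain ⟨i, hi⟩ : -x ∈ Set.range a := by
      rw [hag]; exact H.neg_mem hx
    rw [hfib1 i x, hi, neg_add_cancel]
  have ha_card : ∀ x ∈ H, Fintype.card {j // a j = x} = q := by
    intro x hx
    obtain ⟨i, hi⟩ : -x ∈ Set.range b := by
      rw [hbg]; exact H.neg_mem hx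
    rw [hfib2 i x, hi, add_neg_cancel]
  have hg_card : ∀ x ∈ H, Fintype.card {s // g s = x} = q := by
    intro x hx
    have := hfib1 o x
    rw [ha0, zero_add] at this
    rw [← this, hb_card x hx]
  -- the maps to the cyclic group
  set N := Nat.card H with hN
  let e : ZMod N ≃+ H := zmodAddCyclicAddEquiv hcyc
  have hNpos : 0 < N := Nat.card_pos
  have : NeZero N := ⟨hNpos.ne'⟩
  have hsumfib : ∀ (f : Fin n → AddCircle (1 : ℚ)) (hf : ∀ i, f i ∈ H),
      (∀ x ∈ H, Fintype.card {j // f j = x} = q) → ∑ i, f i = q • ∑ x : H, (x : AddCircle (1 : ℚ)) := by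
    intro f hf hcard
    have h1 : ∀ x : H, Fintype.card {j // (⟨f j, hf j⟩ : H) = x} = q := by
      intro x
      rw [← hcard x x.2]
      apply Fintype.card_congr
      exact Equiv.subtypeEquivRight fun j => by rw [Subtype.ext_iff]
    obtain ⟨r, hr⟩ := exists_numbering (fun j => (⟨f j, hf j⟩ : H)) h1
    have h2 : ∑ i, f i = ∑ i, (((r i).1 : H) : AddCircle (1 : ℚ)) := by
      refine Finset.sum_congr rfl fun i _ => ?_
      rw [hr i]
    rw [h2, Equiv.sum_comp r (fun p : H × Fin q => ((p.1 : H) : AddCircle (1 : ℚ))), Fintype.sum_prod_type]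
    simp [Finset.smul_sum]
  set S0 := ∑ x : H, (x : AddCircle (1 : ℚ)) with hSd
  have htotal : q • S0 ≠ 0 := by
    intro e0
    apply hne
    have h1 : ∑ i, α i = ∑ i, a i + n • α o := by
      simp [a]
    have h2 : ∑ i, β i = ∑ i, b i + n • β o := by
      simp [b]
    have h3 : ∑ i, γ i = - ∑ i, g i - n • α o - n • β o := by
      simp only [g, Finset.sum_sub_distrib, Finset.sum_neg_distrib, Finset.sum_const, Finset.card_univ,
        Fintype.card_fin]
      abel
    rw [h1, h2, h3, hsumfib a haH ha_card, hsumfib b hbH hb_card, hsumfib g hgH hg_card]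
    rw [e0]
    abel
  have hinv : S0 + S0 = 0 := by
    have h1 : S0 = - S0 := by
      rw [hSd, ← Finset.sum_neg_distrib]
      rw [← Equiv.sum_comp (Equiv.neg H) (fun x : H => (x : AddCircle (1 : ℚ)))]
      simp
    nth_rewrite 1 [h1]
    exact neg_add_cancel _
  have hqodd : Odd q := by
    by_contra hcon
    rw [Nat.not_odd_iff_even] at hcon
    obtain ⟨t, ht⟩ := hcon
    apply htotal
    rw [ht, ← two_mul, mul_comm, mul_nsmul, two_nsmul, ← nsmul_add]
    rw [hinv, nsmul_zero]
  have hS0 : S0 ≠ 0 := by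
    intro e0; apply htotal; rw [e0, nsmul_zero]
  have hSH : S0 ∈ H := by
    rw [hSd]
    exact AddSubgroup.sum_mem _ fun x _ => x.2
  have hNeven : Even N := by
    have h1 : addOrderOf (⟨S0, hSH⟩ : H) = 2 := by
      rw [addOrderOf_eq_prime_iff]
      refine ⟨?_, ?_⟩
      · apply Subtype.ext
        simpa [two_nsmul] using hinv
      · intro e0
        exact hS0 (congrArg Subtype.val e0)
    have h2 : addOrderOf (⟨S0, hSH⟩ : H) ∣ Nat.card H := addOrderOf_dvd_natCard _
    rw [h1] at h2
    exact even_iff_two_dvd.2 h2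
  obtain ⟨m, hm⟩ := hNeven
  have hm2 : N = 2 * m := by omega
  have hmpos : 1 ≤ m := by omega
  let e' : H ≃+ ZMod (2 * m) := e.symm.trans (ZMod.ringEquivCongr hm2).toAddEquiv
  have hcard' : ∀ (f : Fin n → AddCircle (1 : ℚ)) (hf : ∀ i, f i ∈ H),
      (∀ x ∈ H, Fintype.card {j // f j = x} = q) →
      ∀ z, Fintype.card {j // e' ⟨f j, hf j⟩ = z} = q := by
    intro f hf hcard z
    rw [← hcard (e'.symm z) (e'.symm z).2]
    apply Fintype.card_congr
    refine Equiv.subtypeEquivRight fun j => ?_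
    constructor
    · intro h1
      rw [← h1]
      simp
    · intro h1
      have h2 : (⟨f j, hf j⟩ : H) = e'.symm z := Subtype.ext h1
      rw [h2]
      simp
  refine ⟨m, pattern_of_maps hL hmpos hqodd (fun i => e' ⟨a i, haH i⟩) (fun j => e' ⟨b j, hbH j⟩)
    (fun s => e' ⟨g s, hgH s⟩) ?_ (hcard' a haH ha_card) (hcard' b hbH hb_card)⟩
  intro i j
  show e' _ = e' _ + e' _
  rw [← map_add]
  congr 1
  exact Subtype.ext (hab i j)

/-- A latin square has no odd-weight if and only if it has the odd-block pattern of the Cayley table of `ℤ/2m` for some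
`m ≥ 1`. -/
theorem result : ∀ (n : ℕ) (L : Fin n → Fin n → Fin n), IsLatin L →
    (¬ HasOddWeight L ↔ ∃ m : ℕ, HasOddBlockPattern L m) :=
  fun _ _ hL => ⟨fun h => pattern_of_no_odd hL h, fun ⟨_, h⟩ => no_odd_of_pattern hL h⟩

end Pool.Agent.Results.MP_b7f7f4_co.OddBlockPattern
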